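import Mathlib
import Pool.Agent.Y178.NG.Interior
import Pool.Agent.H940R2.Vanish

/-!
Vanishing of cycles supported on the block of monomials whose `w`-part is a pure power.
-/

namespace Pool.Agent.Y178.NG

open Pool.Agent.H940R2

variable [NX]

open MvPolynomial Finset

/-- the number of monomials of degree `n` in `N` variables -/
def NN (n : ℕ) : ℕ := (Finset.finsuppAntidiag (Finset.univ : Finset (Fin nx)) n).card

lemma NN_eq (n : ℕ) : NN n = (n + (nx - 1)).choose n := by
  rw [NN, Finset.card_finsuppAntidiag_nat_eq_choose]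
  simp only [Finset.card_univ, Fintype.card_fin]
  have h : 0 < nx := NX.pos
  have e : nx + n - 1 = n + (nx - 1) := by omega
  rw [e]

variable {d : ℕ}

/-- monomials whose `w`-part is `w_c^d` -/
def Cp (d : ℕ) (c : Fin 2) (i : Fin (h0 d)) : Prop := (mon d i).1 (Sum.inr c) = d

noncomputable instance (c : Fin 2) : DecidablePred (Cp d c) := fun _ => inferInstanceAs (Decidable (_ = _))

/-- the block -/
def blk (d : ℕ) (i : Fin (h0 d)) : Prop := Cp d 0 i ∨ Cp d 1 i

noncomputable instance : DecidablePred (blk d) := fun _ => inferInstanceAs (Decidable (_ ∨ _))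

/-- the `x`-part of an exponent -/
noncomputable def xp (u : Var →₀ ℕ) : Var →₀ ℕ :=
  Finsupp.equivFunOnFinite.symm (Sum.elim (fun a => u (Sum.inl a)) (fun _ => 0))

@[simp] lemma xp_inl (u : Var →₀ ℕ) (a : Fin nx) : xp u (Sum.inl a) = u (Sum.inl a) := rfl
@[simp] lemma xp_inr (u : Var →₀ ℕ) (b : Fin 2) : xp u (Sum.inr b) = 0 := rfl

/-- the part of bidegree `(j, d-j)` in the `w`-variables of `M0` -/
def Mj (d j : ℕ) : Submodule ℂ Poly where
  carrier := {f | ∀ u : Var →₀ ℕ, coeff u f ≠ 0 →
    ((∑ a : Fin nx, u (Sum.inl a)) = d ∧ (∑ b : Fin 2, u (Sum.inr b)) = d) ∧ (∀ c, 1 ≤ u c) ∧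
      u (Sum.inr 0) = j}
  add_mem' := by
    intro f g hf hg u hu
    rw [coeff_add] at hu
    by_cases h : coeff u f = 0
    · exact hg u (by intro h'; exact hu (by rw [h, h', add_zero]))
    · exact hf u h
  zero_mem' := by
    intro u hu
    exact absurd (coeff_zero u) hu
  smul_mem' := by
    intro c f hf u hu
    rw [coeff_smul] at hu
    exact hf u (by intro h'; exact hu (by rw [h', smul_zero]))

/-- exponent vector from parts -/
noncomputable def mk (a : Fin nx →₀ ℕ) (p q : ℕ) : Var →₀ ℕ :=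
  Finsupp.equivFunOnFinite.symm (Sum.elim a ![p, q])

@[simp] lemma mk_inl (a : Fin nx →₀ ℕ) (p q : ℕ) (i : Fin nx) : mk a p q (Sum.inl i) = a i := rfl
@[simp] lemma mk_inr0 (a : Fin nx →₀ ℕ) (p q : ℕ) : mk a p q (Sum.inr 0) = p := rfl
@[simp] lemma mk_inr1 (a : Fin nx →₀ ℕ) (p q : ℕ) : mk a p q (Sum.inr 1) = q := rfl

lemma Mj_le_span (hd : nx ≤ d) (j : ℕ) : Mj d j ≤ Submodule.span ℂ
    (((Finset.finsuppAntidiag (Finset.univ : Finset (Fin nx)) (d - nx)).image
      (fun a => (monomial (mk (a + Finsupp.equivFunOnFinite.symm (fun _ => 1)) j (d - j))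
        (1 : ℂ) : Poly)) : Finset Poly) : Set Poly) := by
  intro f hf
  rw [← f.support_sum_monomial_coeff]
  refine Submodule.sum_mem _ fun u hu => ?_
  obtain ⟨⟨h1, h2⟩, h3, h4⟩ := hf u (by simpa [mem_support_iff] using hu)
  have e : monomial u (coeff u f) = (coeff u f) • (monomial u (1 : ℂ) : Poly) := by
    rw [smul_monomial, smul_eq_mul, mul_one]
  rw [e]
  refine Submodule.smul_mem _ _ (Submodule.subset_span ?_)
  rw [Finset.coe_image]
  refine ⟨Finsupp.equivFunOnFinite.symm (fun a => u (Sum.inl a) - 1), ?_, ?_⟩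
  · rw [Finset.mem_coe, Finset.mem_finsuppAntidiag]
    refine ⟨?_, Finset.subset_univ _⟩
    simp only [Finsupp.equivFunOnFinite_symm_apply_apply]
    have h5 : ∑ a : Fin nx, (u (Sum.inl a) - 1) + nx = d := by
      have h6 : ∑ a : Fin nx, (u (Sum.inl a) - 1 + 1) = ∑ a : Fin nx, u (Sum.inl a) := by
        refine Finset.sum_congr rfl fun a _ => ?_
        have := h3 (Sum.inl a)
        omega
      rw [Finset.sum_add_distrib, Finset.sum_const, Finset.card_univ, Fintype.card_fin,
        smul_eq_mul, mul_one, h1] at h6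
      exact h6
    omega
  · have e2 : mk (Finsupp.equivFunOnFinite.symm (fun a => u (Sum.inl a) - 1) +
        Finsupp.equivFunOnFinite.symm (fun _ => 1)) j (d - j) = u := by
      apply Finsupp.ext
      intro c
      rcases c with a | b
      · simp only [mk_inl, Finsupp.add_apply, Finsupp.equivFunOnFinite_symm_apply_apply]
        have := h3 (Sum.inl a)
        omega
      · rw [Fin.sum_univ_two] at h2
        fin_cases b
        · exact h4.symm
        · change d - j = u (Sum.inr 1)
          omega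
    simp only [e2]

lemma finrank_Mj (hd : nx ≤ d) (j : ℕ) : FiniteDimensional ℂ (Mj d j) ∧
    Module.finrank ℂ (Mj d j) ≤ NN (d - nx) := by
  have h1 := Mj_le_span hd j
  have hfin : FiniteDimensional ℂ (Mj d j) := Submodule.finiteDimensional_of_le h1
  refine ⟨hfin, ?_⟩
  calc Module.finrank ℂ (Mj d j) ≤ Module.finrank ℂ _ := Submodule.finrank_mono h1
    _ ≤ _ := finrank_span_finset_le_card _
    _ ≤ NN (d - nx) := Finset.card_image_le

lemma mon_of_Cp {c : Fin 2} {i : Fin (h0 d)} (h : Cp d c i) :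
    (mon d i).1 = xp (mon d i).1 + Finsupp.single (Sum.inr c) d := by
  have h2 := (mon d i).2.2
  rw [Fin.sum_univ_two] at h2
  ext e
  rcases e with a | b
  · simp
  · rw [Finsupp.add_apply, xp_inr, zero_add, Cp] at *
    fin_cases c <;> fin_cases b <;> simp at * <;> omega

lemma other_of_Cp {c c' : Fin 2} (hc : c ≠ c') {i : Fin (h0 d)} (h : Cp d c i) :
    (mon d i).1 (Sum.inr c') = 0 := by
  rw [mon_of_Cp h, Finsupp.add_apply, xp_inr, zero_add, Finsupp.single_apply, if_neg]
  intro h'
  exact hc (Sum.inr_injective h')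

/-- sections in `M0` have `w`-exponents less than `d` -/
lemma M0_lt {f : Poly} (hf : f ∈ M0 d) (u : Var →₀ ℕ) (c : Fin 2) (h : d ≤ u (Sum.inr c)) :
    coeff u f = 0 := by
  by_contra hne
  obtain ⟨⟨_, h2⟩, h3⟩ := hf u hne
  rw [Fin.sum_univ_two] at h2
  have h4 := h3 (Sum.inr 0)
  have h5 := h3 (Sum.inr 1)
  fin_cases c <;> simp at h <;> omega

lemma xp_mon_injOn (c : Fin 2) {i j : Fin (h0 d)} (hi : Cp d c i) (hj : Cp d c j)
    (h : xp (mon d i).1 = xp (mon d j).1) : i = j := by
  have : mon d i = mon d j := by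
    apply Subtype.ext
    rw [mon_of_Cp hi, mon_of_Cp hj, h]
  exact (mon d).injective this

/-- decoupling of the cycle condition -/
lemma decouple {n : ℕ} {g : Finset (Fin (h0 d)) → Poly} (hM : ∀ B, g B ∈ M0 d)
    (hcyc : ∀ G : Finset (Fin (h0 d)),
      ∑ b ∈ Gᶜ.filter (blk d), sg ℂ G b • (bas d b * g (insert b G)) = 0)
    (hd : 0 < d) (c : Fin 2) (G : Finset (Fin (h0 d))) (u : Var →₀ ℕ) :
    ∑ b ∈ Gᶜ.filter (Cp d c), sg ℂ G b * (if xp (mon d b).1 ≤ u then
      coeff (u - xp (mon d b).1) (g (insert b G)) else 0) = 0 := by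
  have h1 := congrArg (coeff (u + Finsupp.single (Sum.inr c) d)) (hcyc G)
  rw [coeff_sum, coeff_zero] at h1
  refine Eq.trans ?_ h1
  have hsub : Gᶜ.filter (Cp d c) ⊆ Gᶜ.filter (blk d) := by
    intro b hb
    simp only [Finset.mem_filter] at hb ⊢
    refine ⟨hb.1, ?_⟩
    fin_cases c
    · exact Or.inl hb.2
    · exact Or.inr hb.2
  rw [← Finset.sum_subset hsub]
  · refine Finset.sum_congr rfl fun b hb => ?_
    have hc := (Finset.mem_filter.mp hb).2
    rw [coeff_smul, smul_eq_mul, bas, coeff_monomial_mul', one_mul]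
    congr 1
    have e1 := mon_of_Cp hc
    by_cases h : xp (mon d b).1 ≤ u
    · rw [if_pos h, if_pos]
      · congr 1
        conv_rhs => rw [e1]
        exact (add_tsub_add_eq_tsub_right _ _ _).symm
      · rw [e1]
        exact add_le_add_left h _
    · rw [if_neg h, if_neg]
      intro h'
      apply h
      rw [e1] at h'
      exact le_of_add_le_add_right h'
  · intro b hb hnb
    rw [coeff_smul, smul_eq_mul, bas, coeff_monomial_mul', one_mul]
    simp only [Finset.mem_filter] at hb hnb
    have hother : ∃ c', c' ≠ c ∧ Cp d c' b := by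
      rcases hb.2 with h | h
      · refine ⟨0, ?_, h⟩
        rintro rfl
        exact hnb ⟨hb.1, h⟩
      · refine ⟨1, ?_, h⟩
        rintro rfl
        exact hnb ⟨hb.1, h⟩
    obtain ⟨c', hcc, hc'⟩ := hother
    split_ifs with h
    · rw [M0_lt (hM _) _ c, mul_zero]
      rw [Finsupp.tsub_apply, other_of_Cp hcc hc', Finsupp.add_apply, Finsupp.single_eq_same]
      omega
    · rw [mul_zero]

/-- vanishing of block cycles of large exterior degree -/
theorem block_vanish (hd : nx ≤ d) {n : ℕ} (hn : NN (d - nx) ≤ n) {g : Finset (Fin (h0 d)) → Poly}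
    (hM : ∀ B, g B ∈ M0 d) (hcard : ∀ B, B.card ≠ n → g B = 0)
    (hcov : ∀ B, g B ≠ 0 → ∀ b ∈ B, blk d b)
    (hcyc : ∀ G : Finset (Fin (h0 d)),
      ∑ b ∈ Gᶜ.filter (blk d), sg ℂ G b • (bas d b * g (insert b G)) = 0) : g = 0 := by
  classical
  have hj : ∀ j : ℕ, (fun B => weightedHomogeneousComponent
      (Pi.single (Sum.inr 0 : Var) 1 : Var → ℕ) j (g B)) = 0 := by
    intro j
    have hw : ∀ u : Var →₀ ℕ, Finsupp.weight (Pi.single (Sum.inr 0 : Var) 1 : Var → ℕ) u =
        u (Sum.inr 0) := by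
      intro u
      rw [Finsupp.weight_apply, Finsupp.sum_fintype _ _ (by simp)]
      simp [Pi.single_apply]
    have hco : ∀ (B : Finset (Fin (h0 d))) (u : Var →₀ ℕ), coeff u (weightedHomogeneousComponent
      (Pi.single (Sum.inr 0 : Var) 1 : Var → ℕ) j (g B)) =
        if u (Sum.inr 0) = j then coeff u (g B) else 0 := by
      intro B u
      rw [coeff_weightedHomogeneousComponent, hw]
    obtain ⟨hfd, hfr⟩ := finrank_Mj hd j
    refine vanish (Cp d) (fun i => monomial (xp (mon d i).1) (1 : ℂ)) ?_ n (Mj d j)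
      (hfr.trans hn) _ ?_ ?_ ?_ ?_
    · intro c s hs t ht b hb
      have h1 := congrArg (coeff (xp (mon d b).1)) ht
      rw [coeff_sum, coeff_zero, Finset.sum_eq_single b] at h1
      · simpa using h1
      · intro b' hb' hne
        rw [coeff_smul, coeff_monomial, if_neg, smul_zero]
        intro h'
        exact hne (xp_mon_injOn c (hs b' hb') (hs b hb) h')
      · intro h; exact absurd hb h
    · intro B u hu
      simp only [hco] at hu
      split_ifs at hu with h
      · obtain ⟨h1, h2⟩ := hM B u hu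
        exact ⟨h1, h2, h⟩
      · exact absurd rfl hu
    · intro B hB
      simp only [hcard B hB, map_zero]
    · intro B hB b hb
      have h1 : g B ≠ 0 := by
        intro h
        apply hB
        simp only [h, map_zero]
      rcases hcov B h1 b hb with h | h
      · exact ⟨0, h⟩
      · exact ⟨1, h⟩
    · intro c G
      ext u
      rw [coeff_sum, coeff_zero]
      by_cases hu : u (Sum.inr 0) = j
      · rw [← decouple (n := n) hM hcyc (NX.pos.trans_le hd) c G u]
        refine Finset.sum_congr rfl fun b _ => ?_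
        rw [coeff_smul, smul_eq_mul, coeff_monomial_mul', one_mul, hco]
        congr 1
        rw [Finsupp.tsub_apply, xp_inr, Nat.sub_zero, if_pos hu]
      · apply Finset.sum_eq_zero
        intro b _
        rw [coeff_smul, smul_eq_mul, coeff_monomial_mul', one_mul, hco]
        rw [Finsupp.tsub_apply, xp_inr, Nat.sub_zero, if_neg hu]
        simp
  funext B
  ext u
  have h1 := congrArg (coeff u) (congrFun (hj (u (Sum.inr 0))) B)
  have hw : Finsupp.weight (Pi.single (Sum.inr 0 : Var) 1 : Var → ℕ) u =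
        u (Sum.inr 0) := by
    rw [Finsupp.weight_apply, Finsupp.sum_fintype _ _ (by simp)]
    simp [Pi.single_apply]
  simp only [coeff_weightedHomogeneousComponent, hw, if_true] at h1
  rw [h1]

end Pool.Agent.Y178.NG
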