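import Mathlib
import Pool.Agent.Y178.NG.Block

/-!
Leading terms of cycles and the resulting inequality between consecutive dimensions.
-/

namespace Pool.Agent.Y178.NG

open Pool.Agent.H940R2

variable [NX]

open MvPolynomial Finset

variable {d : ℕ}

lemma kosz_apply' (f : Finset (Fin (h0 d)) → Poly) (G : Finset (Fin (h0 d))) :
    kosz d f G = ∑ b ∈ Gᶜ, sg ℂ G b • (bas d b * f (insert b G)) := by
  rw [kosz_apply]
  refine Finset.sum_congr rfl fun b _ => ?_
  rw [sg, MvPolynomial.smul_eq_C_mul, map_pow, map_neg, map_one, mul_assoc]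

/-- the position of a vertex; the vertices outside the block come after those in the block -/
noncomputable def pos (i : Fin (h0 d)) : ℕ := if blk d i then i.val else i.val + h0 d

lemma pos_inj : Function.Injective (pos (d := d)) := by
  intro i j h
  simp only [pos] at h
  have hi := i.2
  have hj := j.2
  apply Fin.ext
  split_ifs at h <;> omega

/-- the weight of a set -/
noncomputable def wt (B : Finset (Fin (h0 d))) : ℕ := ∑ i ∈ B, 2 ^ pos i

lemma wt_inj : Function.Injective (wt (d := d)) := by
  classical
  intro B B' h
  have h1 : ∀ C : Finset (Fin (h0 d)), wt C = ∑ k ∈ C.image pos, 2 ^ k := by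
    intro C
    rw [Finset.sum_image (fun _ _ _ _ h => pos_inj h)]
    rfl
  rw [h1, h1] at h
  exact Finset.image_injective pos_inj (geomSum_injective le_rfl h)

lemma wt_insert {B : Finset (Fin (h0 d))} {v : Fin (h0 d)} (h : v ∉ B) :
    wt (insert v B) = 2 ^ pos v + wt B := by
  rw [wt, Finset.sum_insert h, wt]

lemma wt_block_lt {B : Finset (Fin (h0 d))} (hB : ∀ b ∈ B, blk d b) {v : Fin (h0 d)}
    (hv : ¬ blk d v) : wt B < 2 ^ pos v := by
  classical
  have h1 : wt B = ∑ k ∈ B.image pos, 2 ^ k := by
    rw [Finset.sum_image (fun _ _ _ _ h => pos_inj h)]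
    rfl
  rw [h1]
  apply Nat.geomSum_lt le_rfl
  intro k hk
  rw [Finset.mem_image] at hk
  obtain ⟨i, hi, rfl⟩ := hk
  simp only [pos, if_pos (hB i hi), if_neg hv]
  have := i.2
  omega

/-- the filtration by weight -/
noncomputable def FF (d p n : ℕ) : Submodule ℂ (Finset (Fin (h0 d)) → Poly) where
  carrier := {f | f ∈ KK d p ∧ ∀ B, n ≤ wt B → f B = 0}
  add_mem' := by
    rintro f g ⟨hf, hf'⟩ ⟨hg, hg'⟩
    refine ⟨Submodule.add_mem _ hf hg, fun F hF => ?_⟩
    rw [Pi.add_apply, hf' F hF, hg' F hF, add_zero]
  zero_mem' := ⟨Submodule.zero_mem _, fun F _ => rfl⟩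
  smul_mem' := by
    rintro c f ⟨hf, hf'⟩
    refine ⟨Submodule.smul_mem _ c hf, fun F hF => ?_⟩
    rw [Pi.smul_apply, hf' F hF, smul_zero]

/-- the space of leading coefficients -/
noncomputable def Ld (B : Finset (Fin (h0 d))) : Submodule ℂ Poly :=
  (FF d B.card (wt B + 1)).map (LinearMap.proj B)

/-- its dimension -/
noncomputable def aa (B : Finset (Fin (h0 d))) : ℕ := Module.finrank ℂ (Ld B)

lemma M0_finite (d : ℕ) : FiniteDimensional ℂ (M0 d) := by
  classical
  let N : Var →₀ ℕ := Finsupp.equivFunOnFinite.symm (fun _ => d)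
  have h : M0 d ≤ Submodule.span ℂ
      (((Finset.Iic N).image (fun u => (monomial u (1 : ℂ) : Poly)) : Finset Poly) : Set Poly) := by
    intro f hf
    rw [← f.support_sum_monomial_coeff]
    refine Submodule.sum_mem _ fun u hu => ?_
    obtain ⟨⟨h1, h2⟩, h3⟩ := hf u (by simpa [mem_support_iff] using hu)
    have e : monomial u (coeff u f) = (coeff u f) • (monomial u (1 : ℂ) : Poly) := by
      rw [smul_monomial, smul_eq_mul, mul_one]
    rw [e]
    refine Submodule.smul_mem _ _ (Submodule.subset_span ?_)
    rw [Finset.coe_image]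
    refine ⟨u, ?_, rfl⟩
    rw [Finset.mem_coe, Finset.mem_Iic]
    intro c
    change u c ≤ d
    rcases c with a | b
    · rw [← h1]
      exact Finset.single_le_sum (f := fun a => (u (Sum.inl a)))
        (fun _ _ => Nat.zero_le _) (Finset.mem_univ a)
    · rw [← h2]
      exact Finset.single_le_sum (f := fun b => (u (Sum.inr b)))
        (fun _ _ => Nat.zero_le _) (Finset.mem_univ b)
  exact Submodule.finiteDimensional_of_le h

lemma KK_finite (d p : ℕ) : FiniteDimensional ℂ (KK d p) := by
  have := M0_finite d
  let Φ : KK d p →ₗ[ℂ] (Finset (Fin (h0 d)) → M0 d) :=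
    { toFun := fun f B => ⟨f.1 B, f.2.1 B⟩
      map_add' := fun _ _ => rfl
      map_smul' := fun _ _ => rfl }
  refine FiniteDimensional.of_injective Φ ?_
  intro f g h
  apply Subtype.ext
  funext B
  exact congrArg Subtype.val (congrFun h B)

lemma FF_le (p n : ℕ) : FF d p n ≤ KK d p := fun _ hf => hf.1

lemma FF_finite (d p n : ℕ) : FiniteDimensional ℂ (FF d p n) := by
  have := KK_finite d p
  exact Submodule.finiteDimensional_of_le (FF_le p n)

lemma finrank_FF (p n : ℕ) : Module.finrank ℂ (FF d p n) =
    ∑ B ∈ (Finset.powersetCard p (univ : Finset (Fin (h0 d)))).filter (fun B => wt B < n),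
      aa B := by
  induction n with
  | zero =>
    have : FF d p 0 = ⊥ := by
      rw [eq_bot_iff]
      intro f hf
      rw [Submodule.mem_bot]
      funext B
      exact hf.2 B (Nat.zero_le _)
    rw [this, finrank_bot]
    simp
  | succ n ih =>
    by_cases hB : ∃ B ∈ Finset.powersetCard p (univ : Finset (Fin (h0 d))), wt B = n
    · obtain ⟨B, hB, hBn⟩ := hB
      have hfilter : (Finset.powersetCard p univ).filter (fun B => wt B < n + 1) =
          insert B ((Finset.powersetCard p univ).filter (fun B => wt B < n)) := by
        ext C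
        simp only [Finset.mem_filter, Finset.mem_insert]
        constructor
        · rintro ⟨h1, h2⟩
          rcases Nat.lt_succ_iff_lt_or_eq.mp h2 with h3 | h3
          · exact Or.inr ⟨h1, h3⟩
          · left
            apply wt_inj
            rw [h3, hBn]
        · rintro (rfl | ⟨h1, h2⟩)
          · exact ⟨hB, by omega⟩
          · exact ⟨h1, by omega⟩
      have hcard : B.card = p := (Finset.mem_powersetCard.mp hB).2
      rw [hfilter, Finset.sum_insert (by simp [hBn]), ← ih]
      have hfd := FF_finite d p (n + 1)
      let g : FF d p (n + 1) →ₗ[ℂ] Poly := (LinearMap.proj B).comp (Submodule.subtype _)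
      have h1 := LinearMap.finrank_range_add_finrank_ker g
      have h2 : LinearMap.range g = Ld B := by
        rw [LinearMap.range_comp, Submodule.range_subtype, Ld, hcard, hBn]
      have h3 : Module.finrank ℂ (LinearMap.ker g) = Module.finrank ℂ (FF d p n) := by
        have hle : FF d p n ≤ FF d p (n + 1) := fun f hf => ⟨hf.1, fun C hC => hf.2 C (by omega)⟩
        have h4 : LinearMap.ker g = (FF d p n).submoduleOf (FF d p (n + 1)) := by
          ext ⟨f, hf⟩
          rw [LinearMap.mem_ker, Submodule.submoduleOf, Submodule.mem_comap]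
          change f B = 0 ↔ f ∈ FF d p n
          constructor
          · intro hfB
            refine ⟨hf.1, fun C hC => ?_⟩
            rcases Nat.lt_or_eq_of_le hC with h5 | h5
            · exact hf.2 C h5
            · have : C = B := by
                apply wt_inj
                rw [← h5, hBn]
              rw [this, hfB]
          · intro h5
            exact h5.2 B (by omega)
        rw [h4]
        exact (Submodule.submoduleOfEquivOfLe hle).finrank_eq
      rw [h2, h3] at h1
      rw [← h1]
      rfl
    · have hfilter : (Finset.powersetCard p univ).filter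
          (fun B : Finset (Fin (h0 d)) => wt B < n + 1) =
          ((Finset.powersetCard p univ).filter (fun B => wt B < n)) := by
        ext C
        simp only [Finset.mem_filter]
        constructor
        · rintro ⟨h1, h2⟩
          refine ⟨h1, ?_⟩
          by_contra h3
          exact hB ⟨C, h1, by omega⟩
        · rintro ⟨h1, h2⟩
          exact ⟨h1, by omega⟩
      rw [hfilter, ← ih]
      have : FF d p (n + 1) = FF d p n := by
        ext f
        constructor
        · intro hf
          refine ⟨hf.1, fun C hC => ?_⟩
          rcases Nat.lt_or_eq_of_le hC with h5 | h5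
          · exact hf.2 C h5
          · by_contra hne
            apply hB
            refine ⟨C, ?_, h5.symm⟩
            rw [Finset.mem_powersetCard]
            refine ⟨Finset.subset_univ _, ?_⟩
            by_contra h6
            exact hne (hf.1.2.1 C h6)
        · intro hf
          exact ⟨hf.1, fun C hC => hf.2 C (by omega)⟩
      rw [this]

/-- dimension of the space of cycles as a sum over leading terms -/
theorem finrank_KK (d p : ℕ) : Module.finrank ℂ (KK d p) =
    ∑ B ∈ Finset.powersetCard p (univ : Finset (Fin (h0 d))), aa B := by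
  let N := ∑ B : Finset (Fin (h0 d)), wt B + 1
  have hN : ∀ B : Finset (Fin (h0 d)), wt B < N := by
    intro B
    have h : wt B ≤ ∑ B : Finset (Fin (h0 d)), wt B :=
      Finset.single_le_sum (f := fun B : Finset (Fin (h0 d)) => wt B)
        (fun _ _ => Nat.zero_le _) (Finset.mem_univ B)
    omega
  have h1 : FF d p N = KK d p := by
    apply le_antisymm (FF_le p N)
    intro f hf
    exact ⟨hf, fun B hB => absurd hB (not_le.mpr (hN B))⟩
  rw [← h1, finrank_FF]
  congr 1
  apply Finset.filter_true_of_mem
  intro B _
  exact hN B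

/-- contraction -/
noncomputable def ctr (v : Fin (h0 d)) :
    (Finset (Fin (h0 d)) → Poly) →ₗ[ℂ] (Finset (Fin (h0 d)) → Poly) where
  toFun f := fun G => if v ∈ G then 0 else sg ℂ G v • f (insert v G)
  map_add' := by
    intro f g
    funext G
    by_cases h : v ∈ G <;> simp [h]
  map_smul' := by
    intro c f
    funext G
    by_cases h : v ∈ G
    · simp [h]
    · simp only [if_neg h, Pi.smul_apply, RingHom.id_apply]
      rw [smul_comm]

lemma ctr_apply (v : Fin (h0 d)) (f : Finset (Fin (h0 d)) → Poly) (G : Finset (Fin (h0 d))) :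
    ctr v f G = if v ∈ G then 0 else sg ℂ G v • f (insert v G) := rfl

lemma kosz_ctr (v : Fin (h0 d)) {f : Finset (Fin (h0 d)) → Poly} (hf : kosz d f = 0) :
    kosz d (ctr v f) = 0 := by
  funext G
  rw [kosz_apply', Pi.zero_apply]
  by_cases hv : v ∈ G
  · apply Finset.sum_eq_zero
    intro b _
    rw [ctr_apply, if_pos (Finset.mem_insert_of_mem hv), mul_zero, smul_zero]
  · have h1 : Gᶜ = insert v (insert v G)ᶜ := by
      ext c
      simp only [Finset.mem_compl, Finset.mem_insert, not_or]
      by_cases hc : c = v
      · subst hc; simp [hv]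
      · simp [hc]
    rw [h1, Finset.sum_insert (by simp), ctr_apply, if_pos (Finset.mem_insert_self _ _), mul_zero,
      smul_zero, zero_add]
    have h2 : kosz d f (insert v G) = 0 := by rw [hf]; rfl
    rw [kosz_apply'] at h2
    have h3 : ∑ b ∈ (insert v G)ᶜ, sg ℂ G b • (bas d b * ctr v f (insert b G)) =
        -(sg ℂ G v) • ∑ b ∈ (insert v G)ᶜ, sg ℂ (insert v G) b •
          (bas d b * f (insert b (insert v G))) := by
      rw [Finset.smul_sum]
      refine Finset.sum_congr rfl fun b hb => ?_
      simp only [Finset.mem_compl, Finset.mem_insert, not_or] at hb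
      rw [ctr_apply, if_neg]
      · have h4 := sg_anti (K := ℂ) G hv hb.2 (Ne.symm hb.1)
        rw [Finset.insert_comm v b G, mul_smul_comm, smul_smul, smul_smul]
        congr 1
        linear_combination h4
      · simp only [Finset.mem_insert, not_or]
        exact ⟨Ne.symm hb.1, hv⟩
    rw [h3, h2, smul_zero]

lemma ctr_mem {p : ℕ} (v : Fin (h0 d)) {f : Finset (Fin (h0 d)) → Poly} (hf : f ∈ KK d (p + 1)) :
    ctr v f ∈ KK d p := by
  refine ⟨?_, ?_, kosz_ctr v hf.2.2⟩
  · intro B
    rw [ctr_apply]
    split_ifs
    · exact Submodule.zero_mem _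
    · exact Submodule.smul_mem _ _ (hf.1 _)
  · intro B hB
    rw [ctr_apply]
    split_ifs with h
    · rfl
    · rw [hf.2.1, smul_zero]
      rw [Finset.card_insert_of_notMem h]
      omega

/-- monotonicity of the spaces of leading coefficients -/
lemma Ld_le {B : Finset (Fin (h0 d))} {v : Fin (h0 d)} (hv : v ∈ B) : Ld B ≤ Ld (B.erase v) := by
  rintro m ⟨f, hf, rfl⟩
  obtain ⟨G, hvG, rfl⟩ : ∃ G, v ∉ G ∧ insert v G = B :=
    ⟨B.erase v, Finset.notMem_erase v B, Finset.insert_erase hv⟩
  rw [Finset.erase_insert hvG]
  rw [Finset.card_insert_of_notMem hvG] at hf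
  have h1 : ctr v f ∈ FF d G.card (wt G + 1) := by
    refine ⟨ctr_mem v hf.1, ?_⟩
    intro C hC
    rw [ctr_apply]
    split_ifs with h
    · rfl
    · rw [hf.2, smul_zero]
      rw [wt_insert hvG, wt_insert h]
      omega
  refine ⟨sg ℂ G v • ctr v f, Submodule.smul_mem _ _ h1, ?_⟩
  rw [map_smul]
  change sg ℂ G v • ctr v f G = f (insert v G)
  rw [ctr_apply, if_neg hvG, smul_smul, sg_mul_self, one_smul]

lemma Ld_finite (B : Finset (Fin (h0 d))) : FiniteDimensional ℂ (Ld B) := by
  have := FF_finite d B.card (wt B + 1)
  rw [Ld]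
  infer_instance

lemma aa_le {B : Finset (Fin (h0 d))} {v : Fin (h0 d)} (hv : v ∈ B) : aa B ≤ aa (B.erase v) := by
  have := Ld_finite (B.erase v)
  exact Submodule.finrank_mono (Ld_le hv)

lemma sg_union {J : Type*} [LinearOrder J] {G H : Finset J} (h : Disjoint G H) (b : J) :
    sg ℂ (G ∪ H) b = sg ℂ G b * sg ℂ H b := by
  rw [sg, sg, sg, ← pow_add, Finset.filter_union, Finset.card_union_of_disjoint]
  exact Finset.disjoint_filter_filter h

/-- vanishing of leading coefficients -/
lemma aa_eq_zero (hd : nx ≤ d) {B : Finset (Fin (h0 d))}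
    (hB : NN (d - nx) ≤ (B.filter (blk d)).card) : aa B = 0 := by
  classical
  have key : ∀ f ∈ FF d B.card (wt B + 1), f B = 0 := by
    intro f hf
    set B1 := B.filter (blk d) with hB1
    set B2 := B.filter (fun b => ¬ blk d b) with hB2
    have hdisj : ∀ G : Finset (Fin (h0 d)), (∀ b ∈ G, blk d b) → Disjoint G B2 := by
      intro G hG
      rw [Finset.disjoint_left]
      intro b hb hb2
      exact (Finset.mem_filter.mp hb2).2 (hG b hb)
    have hunion : B1 ∪ B2 = B := Finset.filter_union_filter_not_eq _ _
    have hB1b : ∀ b ∈ B1, blk d b := fun b hb => (Finset.mem_filter.mp hb).2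
    let g : Finset (Fin (h0 d)) → Poly := fun G =>
      if (∀ b ∈ G, blk d b) then (∏ b ∈ G, sg ℂ B2 b) • f (G ∪ B2) else 0
    have hg : g = 0 := by
      refine block_vanish hd hB ?_ ?_ ?_ ?_
      · intro G
        simp only [g]
        split_ifs
        · exact Submodule.smul_mem _ _ (hf.1.1 _)
        · exact Submodule.zero_mem _
      · intro G hG
        simp only [g]
        split_ifs with h
        · rw [hf.1.2.1, smul_zero]
          rw [Finset.card_union_of_disjoint (hdisj G h)]
          have h1 : B1.card + B2.card = B.card := by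
            rw [← Finset.card_union_of_disjoint (hdisj B1 hB1b), hunion]
          omega
        · rfl
      · intro G hG
        by_contra h
        apply hG
        simp only [g]
        rw [if_neg h]
      · intro G
        by_cases hGb : ∀ b ∈ G, blk d b
        · have h1 : kosz d f (G ∪ B2) = 0 := by rw [hf.1.2.2]; rfl
          rw [kosz_apply'] at h1
          have hsub : Gᶜ.filter (blk d) ⊆ (G ∪ B2)ᶜ := by
            intro b hb
            simp only [Finset.mem_filter, Finset.mem_compl, Finset.mem_union, not_or] at hb ⊢
            refine ⟨hb.1, ?_⟩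
            intro h2
            exact (Finset.mem_filter.mp h2).2 hb.2
          rw [← Finset.sum_subset hsub] at h1
          · have h2 : ∑ b ∈ Gᶜ.filter (blk d), sg ℂ G b • (bas d b * g (insert b G)) =
                (∏ b ∈ G, sg ℂ B2 b) • ∑ b ∈ Gᶜ.filter (blk d), sg ℂ (G ∪ B2) b •
                  (bas d b * f (insert b (G ∪ B2))) := by
              rw [Finset.smul_sum]
              refine Finset.sum_congr rfl fun b hb => ?_
              simp only [Finset.mem_filter, Finset.mem_compl] at hb
              have h3 : ∀ c ∈ insert b G, blk d c := by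
                intro c hc
                rw [Finset.mem_insert] at hc
                rcases hc with rfl | hc
                · exact hb.2
                · exact hGb c hc
              simp only [g]
              rw [if_pos h3, Finset.prod_insert hb.1, Finset.insert_union, sg_union (hdisj G hGb),
                mul_smul_comm, smul_smul, smul_smul]
              congr 1
              ring
            rw [h2, h1, smul_zero]
          · intro b hb hnb
            simp only [Finset.mem_filter, Finset.mem_compl, Finset.mem_union, not_or, not_and]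
              at hb hnb
            have hbb : ¬ blk d b := hnb hb.1
            rw [hf.2, mul_zero, smul_zero]
            have hb' : b ∉ G ∪ B2 := by
              simp only [Finset.mem_union, not_or]; exact hb
            rw [wt_insert hb']
            have h4 := wt_block_lt hB1b hbb
            have h5 : wt B = wt B1 + wt B2 := by
              rw [← hunion, wt, Finset.sum_union (hdisj B1 hB1b)]
              rfl
            have h6 : wt (G ∪ B2) = wt G + wt B2 := by
              rw [wt, Finset.sum_union (hdisj G hGb)]
              rfl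
            omega
        · apply Finset.sum_eq_zero
          intro b _
          simp only [g]
          rw [if_neg, mul_zero, smul_zero]
          intro h
          exact hGb fun c hc => h c (Finset.mem_insert_of_mem hc)
    have h1 := congrFun hg B1
    simp only [g, if_pos hB1b, hunion, Pi.zero_apply, smul_eq_zero] at h1
    rcases h1 with h1 | h1
    · exfalso
      rw [Finset.prod_eq_zero_iff] at h1
      obtain ⟨b, _, hb⟩ := h1
      exact sg_ne_zero B2 b hb
    · exact h1
  have h1 : Ld B = ⊥ := by
    rw [eq_bot_iff]
    rintro m ⟨f, hf, rfl⟩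
    rw [Submodule.mem_bot]
    exact key f hf
  rw [aa, h1, finrank_bot]

/-- the number of vertices of a set outside the block -/
noncomputable def nu (B : Finset (Fin (h0 d))) : ℕ := (B.filter (fun b => ¬ blk d b)).card

lemma nu_ge (hd : nx ≤ d) {B : Finset (Fin (h0 d))} (h : aa B ≠ 0) :
    B.card + 1 ≤ nu B + NN (d - nx) := by
  have h1 : ¬ NN (d - nx) ≤ (B.filter (blk d)).card := fun h' => h (aa_eq_zero hd h')
  have h2 : (B.filter (blk d)).card + nu B = B.card := by
    rw [nu]
    exact Finset.card_filter_add_card_filter_not _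
  omega

lemma double_count (d p : ℕ) :
    ∑ B ∈ Finset.powersetCard (p + 1) (univ : Finset (Fin (h0 d))), nu B * aa B ≤
      ∑ C ∈ Finset.powersetCard p (univ : Finset (Fin (h0 d))),
        (nu (univ : Finset (Fin (h0 d))) - nu C) * aa C := by
  have e1 : ∀ C : Finset (Fin (h0 d)), (Cᶜ.filter (fun b => ¬ blk d b)).card =
      nu (univ : Finset (Fin (h0 d))) - nu C := by
    intro C
    have h : (Cᶜ.filter (fun b => ¬ blk d b)).card + nu C = nu (univ : Finset (Fin (h0 d))) := by
      rw [nu, nu, ← Finset.card_union_of_disjoint]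
      · congr 1
        ext b
        simp only [Finset.mem_union, Finset.mem_filter, Finset.mem_compl, Finset.mem_univ, true_and]
        tauto
      · rw [Finset.disjoint_left]
        intro b hb hb'
        simp only [Finset.mem_filter, Finset.mem_compl] at hb hb'
        exact hb.1 hb'.1
    omega
  calc ∑ B ∈ Finset.powersetCard (p + 1) (univ : Finset (Fin (h0 d))), nu B * aa B
      = ∑ B ∈ Finset.powersetCard (p + 1) (univ : Finset (Fin (h0 d))),
          ∑ _v ∈ B.filter (fun b => ¬ blk d b), aa B := by
        refine Finset.sum_congr rfl fun B _ => ?_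
        rw [Finset.sum_const, smul_eq_mul]
        rfl
    _ ≤ ∑ B ∈ Finset.powersetCard (p + 1) (univ : Finset (Fin (h0 d))),
          ∑ v ∈ B.filter (fun b => ¬ blk d b), aa (B.erase v) := by
        refine Finset.sum_le_sum fun B _ => Finset.sum_le_sum fun v hv => ?_
        exact aa_le (Finset.mem_filter.mp hv).1
    _ = ∑ C ∈ Finset.powersetCard p (univ : Finset (Fin (h0 d))),
          ∑ _v ∈ Cᶜ.filter (fun b => ¬ blk d b), aa C := by
        rw [Finset.sum_sigma', Finset.sum_sigma']
        refine Finset.sum_bij' (fun x _ => ⟨x.1.erase x.2, x.2⟩) (fun x _ => ⟨insert x.2 x.1, x.2⟩)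
          ?_ ?_ ?_ ?_ ?_
        · rintro ⟨B, v⟩ h
          simp only [Finset.mem_sigma, Finset.mem_powersetCard, Finset.mem_filter,
            Finset.mem_compl] at h ⊢
          refine ⟨⟨Finset.subset_univ _, ?_⟩, Finset.notMem_erase _ _, h.2.2⟩
          rw [Finset.card_erase_of_mem h.2.1, h.1.2]
          rfl
        · rintro ⟨C, v⟩ h
          simp only [Finset.mem_sigma, Finset.mem_powersetCard, Finset.mem_filter,
            Finset.mem_compl] at h ⊢
          refine ⟨⟨Finset.subset_univ _, ?_⟩, Finset.mem_insert_self _ _, h.2.2⟩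
          rw [Finset.card_insert_of_notMem h.2.1, h.1.2]
        · rintro ⟨B, v⟩ h
          simp only [Finset.mem_sigma, Finset.mem_filter] at h
          simp only [Finset.insert_erase h.2.1]
        · rintro ⟨C, v⟩ h
          simp only [Finset.mem_sigma, Finset.mem_filter, Finset.mem_compl] at h
          simp only [Finset.erase_insert h.2.1]
        · rintro ⟨B, v⟩ h
          rfl
    _ = _ := by
        refine Finset.sum_congr rfl fun C _ => ?_
        rw [Finset.sum_const, smul_eq_mul, e1]

/-- The inequality between consecutive dimensions. -/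
theorem ratio (hd : nx ≤ d) (p : ℕ) :
    ((p : ℤ) + 2 - NN (d - nx)) * Module.finrank ℂ (KK d (p + 1)) ≤
      ((nu (univ : Finset (Fin (h0 d))) : ℤ) + NN (d - nx) - p - 1) *
        Module.finrank ℂ (KK d p) := by
  have h1 : ((p : ℤ) + 2 - NN (d - nx)) * Module.finrank ℂ (KK d (p + 1)) ≤
      ∑ B ∈ Finset.powersetCard (p + 1) (univ : Finset (Fin (h0 d))), (nu B : ℤ) * aa B := by
    rw [finrank_KK, Nat.cast_sum, Finset.mul_sum]
    refine Finset.sum_le_sum fun B hB => ?_
    by_cases h : aa B = 0
    · rw [h]; simp
    · have h2 := nu_ge hd h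
      rw [(Finset.mem_powersetCard.mp hB).2] at h2
      apply mul_le_mul_of_nonneg_right _ (by positivity)
      omega
  have h2 : ∑ C ∈ Finset.powersetCard p (univ : Finset (Fin (h0 d))),
        (((nu (univ : Finset (Fin (h0 d))) - nu C : ℕ) : ℤ)) * aa C ≤
      ((nu (univ : Finset (Fin (h0 d))) : ℤ) + NN (d - nx) - p - 1) *
        Module.finrank ℂ (KK d p) := by
    rw [finrank_KK, Nat.cast_sum, Finset.mul_sum]
    refine Finset.sum_le_sum fun C hC => ?_
    by_cases h : aa C = 0
    · rw [h]; simp
    · have h2 := nu_ge hd h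
      rw [(Finset.mem_powersetCard.mp hC).2] at h2
      apply mul_le_mul_of_nonneg_right _ (by positivity)
      have h3 : nu C ≤ nu (univ : Finset (Fin (h0 d))) :=
        Finset.card_le_card (Finset.filter_subset_filter _ (Finset.subset_univ _))
      omega
  have h3 := double_count d p
  have h4 : ∑ B ∈ Finset.powersetCard (p + 1) (univ : Finset (Fin (h0 d))), (nu B : ℤ) * aa B ≤
      ∑ C ∈ Finset.powersetCard p (univ : Finset (Fin (h0 d))),
        (((nu (univ : Finset (Fin (h0 d))) - nu C : ℕ) : ℤ)) * aa C := by
    exact_mod_cast h3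
  exact (h1.trans h4).trans h2

end Pool.Agent.Y178.NG
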