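import Mathlib
import Pool.Agent.Y178.NG.Lead

/-!
Cardinalities and the decay of the dimensions of the spaces of cycles past the middle.
-/

namespace Pool.Agent.Y178.NG

open Pool.Agent.H940R2

variable [NX]

open MvPolynomial Finset

variable {d : ℕ}

/-- the `x`-part as a function on `N` letters -/
noncomputable def x4 (u : Var →₀ ℕ) : Fin nx →₀ ℕ :=
  Finsupp.equivFunOnFinite.symm (fun a => u (Sum.inl a))

@[simp] lemma x4_apply (u : Var →₀ ℕ) (a : Fin nx) : x4 u a = u (Sum.inl a) := rfl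

lemma x4_mem (u : Mon d) : x4 u.1 ∈ Finset.finsuppAntidiag (Finset.univ : Finset (Fin nx)) d := by
  rw [Finset.mem_finsuppAntidiag]
  exact ⟨u.2.1, Finset.subset_univ _⟩

/-- the monomials of bidegree `(d,d)` as pairs -/
noncomputable def monEquiv (d : ℕ) :
    Mon d ≃ {a // a ∈ Finset.finsuppAntidiag (Finset.univ : Finset (Fin nx)) d} × Fin (d + 1) where
  toFun u := (⟨x4 u.1, x4_mem u⟩, ⟨u.1 (Sum.inr 0), Nat.lt_succ_of_le (u.le _)⟩)
  invFun x := ⟨mk x.1.1 x.2.1 (d - x.2.1), by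
    constructor
    · have := x.1.2
      rw [Finset.mem_finsuppAntidiag] at this
      exact this.1
    · rw [Fin.sum_univ_two, mk_inr0, mk_inr1]
      have := x.2.2
      omega⟩
  left_inv u := by
    apply Subtype.ext
    apply Finsupp.ext
    intro c
    rcases c with a | b
    · rfl
    · have h := u.2.2
      rw [Fin.sum_univ_two] at h
      fin_cases b
      · rfl
      · change d - u.1 (Sum.inr 0) = u.1 (Sum.inr 1)
        omega
  right_inv x := by
    obtain ⟨⟨a, ha⟩, ⟨k, hk⟩⟩ := x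
    apply Prod.ext
    · apply Subtype.ext
      apply Finsupp.ext
      intro c
      rfl
    · rfl

lemma h0_eq (d : ℕ) : h0 d = (d + 1) * NN d := by
  rw [h0, Fintype.card_congr (monEquiv d), Fintype.card_prod, Fintype.card_fin, Fintype.card_coe,
    NN, mul_comm]

lemma card_Cp (c : Fin 2) : (univ.filter (Cp d c)).card = NN d := by
  refine Finset.card_bij (fun i _ => x4 (mon d i).1) ?_ ?_ ?_
  · intro i _
    exact x4_mem _
  · intro i hi j hj h
    apply xp_mon_injOn c (Finset.mem_filter.mp hi).2 (Finset.mem_filter.mp hj).2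
    apply Finsupp.ext
    intro e
    rcases e with a | b
    · exact DFunLike.congr_fun h a
    · rfl
  · intro a ha
    rw [Finset.mem_finsuppAntidiag] at ha
    let u : Mon d := ⟨mk a (if c = 0 then d else 0) (if c = 0 then 0 else d), by
      constructor
      · exact ha.1
      · rw [Fin.sum_univ_two, mk_inr0, mk_inr1]
        split_ifs <;> simp⟩
    have e : mon d ((mon d).symm u) = u := Equiv.apply_symm_apply _ _
    refine ⟨(mon d).symm u, ?_, ?_⟩
    · rw [Finset.mem_filter]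
      refine ⟨Finset.mem_univ _, ?_⟩
      rw [Cp, e]
      fin_cases c <;> rfl
    · rw [e]
      apply Finsupp.ext
      intro i
      rfl

lemma card_blk (hd : 0 < d) : (univ.filter (blk d)).card = 2 * NN d := by
  have h : univ.filter (blk d) = univ.filter (Cp d 0) ∪ univ.filter (Cp d 1) := by
    ext i
    simp [blk]
  rw [h, Finset.card_union_of_disjoint, card_Cp, card_Cp, two_mul]
  rw [Finset.disjoint_left]
  intro i hi hi'
  have h1 := (Finset.mem_filter.mp hi).2
  have h2 := (Finset.mem_filter.mp hi').2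
  have h3 := other_of_Cp (c := 0) (c' := 1) (by decide) h1
  rw [Cp, h3] at h2
  omega

lemma nu_univ (hd : 0 < d) : nu (univ : Finset (Fin (h0 d))) + 2 * NN d = h0 d := by
  rw [← card_blk hd, nu, add_comm]
  rw [Finset.card_filter_add_card_filter_not]
  simp

/-- the excess -/
noncomputable def mu (d : ℕ) : ℝ := 2 * (NN d : ℝ) - 2 * NN (d - nx)

lemma NN_mono {a b : ℕ} (h : a ≤ b) : NN a ≤ NN b := by
  rw [NN_eq, NN_eq, Nat.choose_symm_add, Nat.choose_symm_add]
  exact Nat.choose_le_choose _ (by omega)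

lemma NN_pos (n : ℕ) : 0 < NN n := by
  rw [NN_eq]
  exact Nat.choose_pos (by omega)

lemma NN_succ {k : ℕ} (hk : nx = k + 2) (n : ℕ) : NN (n + 1) = NN n + (n + k + 1).choose k := by
  rw [NN_eq, NN_eq, Nat.choose_symm_add, Nat.choose_symm_add, hk]
  have e1 : n + 1 + (k + 2 - 1) = (n + k + 1) + 1 := by omega
  have e2 : n + (k + 2 - 1) = n + k + 1 := by omega
  have e3 : k + 2 - 1 = k + 1 := by omega
  rw [e1, e2, e3, Nat.choose_succ_succ, add_comm]

lemma NN_growth {k : ℕ} (hk : nx = k + 2) {d : ℕ} (hd : nx ≤ d) (m : ℕ) :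
    NN (d - nx) + m * (d - 1).choose k ≤ NN (d - nx + m) := by
  induction m with
  | zero => simp
  | succ m ih =>
    rw [← add_assoc, NN_succ hk]
    have h1 : (d - 1).choose k ≤ (d - nx + m + k + 1).choose k :=
      Nat.choose_le_choose _ (by omega)
    have h2 : (m + 1) * (d - 1).choose k = m * (d - 1).choose k + (d - 1).choose k := by ring
    omega

lemma mu_ge {k : ℕ} (hk : nx = k + 2) {d : ℕ} (hd : nx ≤ d) :
    2 * ((k : ℝ) + 2) * (d - 1).choose k ≤ mu d := by
  have h1 := NN_growth hk hd nx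
  have e : d - nx + nx = d := by omega
  rw [e] at h1
  have h2 : (NN (d - nx) : ℝ) + nx * (d - 1).choose k ≤ NN d := by exact_mod_cast h1
  have h3 : ((nx : ℕ) : ℝ) = k + 2 := by rw [hk]; push_cast; ring
  rw [h3] at h2
  rw [mu]
  linarith

lemma mu_nonneg (d : ℕ) : 0 ≤ mu d := by
  have h1 : (NN (d - nx) : ℝ) ≤ NN d := by exact_mod_cast NN_mono (Nat.sub_le d nx)
  rw [mu]
  linarith

lemma real_h0 (d : ℕ) : (h0 d : ℝ) = ((d : ℝ) + 1) * NN d := by
  rw [h0_eq]
  push_cast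
  ring

/-- the dimension of the space of cycles -/
noncomputable def kap (d p : ℕ) : ℝ := (Module.finrank ℂ (KK d p) : ℝ)

lemma kap_nonneg (d p : ℕ) : 0 ≤ kap d p := Nat.cast_nonneg _

lemma h0_pos (d : ℕ) : (0 : ℝ) < h0 d := by
  rw [real_h0]
  have h1 : (0 : ℝ) < NN d := by exact_mod_cast NN_pos d
  positivity

lemma mu_le {d : ℕ} (hd : 2 ≤ d) : mu d ≤ h0 d := by
  have hd' : (2 : ℝ) ≤ d := by exact_mod_cast hd
  have h1 : (0 : ℝ) < NN d := by exact_mod_cast NN_pos d
  have h2 : (0 : ℝ) ≤ NN (d - nx) := Nat.cast_nonneg _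
  rw [real_h0, mu]
  nlinarith

lemma step {d : ℕ} (hd : nx ≤ d) (hd2 : 2 ≤ d) {p : ℕ} (hp : (h0 d : ℝ) - 1 ≤ 2 * p) :
    kap d (p + 1) ≤ (1 - mu d / h0 d) * kap d p := by
  have h1 : (((p : ℤ) + 2 - NN (d - nx)) * Module.finrank ℂ (KK d (p + 1)) : ℝ) ≤
      ((nu (univ : Finset (Fin (h0 d))) : ℤ) + NN (d - nx) - p - 1) *
        Module.finrank ℂ (KK d p) := by
    exact_mod_cast ratio (d := d) hd p
  have h2 : (nu (univ : Finset (Fin (h0 d))) : ℝ) + 2 * NN d = h0 d := by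
    exact_mod_cast nu_univ (d := d) (by omega)
  have h3 : 2 * (NN d : ℝ) - 2 * NN (d - nx) = mu d := rfl
  have h4 := real_h0 d
  have h5 := h0_pos d
  have h6 := mu_le hd2
  have hd' : (2 : ℝ) ≤ d := by exact_mod_cast hd2
  have h7 : (0 : ℝ) ≤ mu d := mu_nonneg d
  have h8 : (0 : ℝ) ≤ NN (d - nx) := Nat.cast_nonneg _
  have h8' : (0 : ℝ) < NN d := by exact_mod_cast NN_pos d
  set D : ℝ := (h0 d : ℝ) with hD
  set i0 : ℝ := (NN (d - nx) : ℝ) with hi0
  have h9 : 2 * i0 < D := by nlinarith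
  push_cast at h1
  change ((p : ℝ) + 2 - i0) * kap d (p + 1) ≤ _ * kap d p at h1
  have hx : 0 < (p : ℝ) + 2 - i0 := by linarith
  have hD0 : 0 < D := h5
  have hy : (nu (univ : Finset (Fin (h0 d))) : ℝ) + i0 - p - 1 ≤ (1 - mu d / D) * (p + 2 - i0) := by
    have e1 : (nu (univ : Finset (Fin (h0 d))) : ℝ) = D - mu d - 2 * i0 := by linarith
    rw [e1]
    have e2 : mu d / D * ((p : ℝ) + 2 - i0) = (mu d * (p + 2 - i0)) / D := by ring
    have e3 : (1 - mu d / D) * ((p : ℝ) + 2 - i0) = (p + 2 - i0) - (mu d * (p + 2 - i0)) / D := by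
      rw [sub_mul, one_mul, e2]
    rw [e3, le_sub_iff_add_le, ← le_sub_iff_add_le', div_le_iff₀ hD0]
    have e4 : (p : ℝ) + 2 - i0 - (D - mu d - 2 * i0 + i0 - p - 1) = 2 * p + 3 - D + mu d := by ring
    rw [e4]
    have e5 : mu d * (p + 2 - i0) ≤ mu d * (p + 2) := by
      apply mul_le_mul_of_nonneg_left _ h7
      linarith
    refine e5.trans ?_
    set t : ℝ := 2 * p + 1 - D with ht
    have ht0 : 0 ≤ t := by linarith
    have e6 : (p : ℝ) = (t + D - 1) / 2 := by rw [ht]; ring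
    have e7 : 2 * (p : ℝ) + 3 - D + mu d = t + 2 + mu d := by rw [ht]; ring
    rw [e7, e6]
    have hD3 : 3 ≤ D := by
      have : (1 : ℝ) ≤ NN d := by exact_mod_cast NN_pos d
      nlinarith
    nlinarith [mul_nonneg h7 ht0, mul_nonneg ht0 hD0.le, mul_le_mul_of_nonneg_right h6 ht0]
  have h10 : ((p : ℝ) + 2 - i0) * kap d (p + 1) ≤
      ((p : ℝ) + 2 - i0) * ((1 - mu d / D) * kap d p) := by
    calc ((p : ℝ) + 2 - i0) * kap d (p + 1)
        ≤ ((nu (univ : Finset (Fin (h0 d))) : ℝ) + i0 - p - 1) * kap d p := h1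
      _ ≤ ((1 - mu d / D) * (p + 2 - i0)) * kap d p :=
          mul_le_mul_of_nonneg_right hy (kap_nonneg d p)
      _ = _ := by ring
  exact le_of_mul_le_mul_left h10 hx

lemma iter {d : ℕ} (hd : nx ≤ d) (hd2 : 2 ≤ d) {p : ℕ} (hp : (h0 d : ℝ) - 1 ≤ 2 * p) (s : ℕ) :
    kap d (p + s) ≤ (1 - mu d / h0 d) ^ s * kap d p := by
  have h6 := mu_le hd2
  have hD0 : (0 : ℝ) < h0 d := h0_pos d
  have h0' : 0 ≤ 1 - mu d / h0 d := by
    rw [sub_nonneg, div_le_one hD0]
    exact h6
  induction s with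
  | zero => simp
  | succ s ih =>
    have h1 : kap d (p + s + 1) ≤ (1 - mu d / h0 d) * kap d (p + s) := by
      apply step hd hd2
      push_cast
      have : (0 : ℝ) ≤ s := Nat.cast_nonneg _
      linarith
    calc kap d (p + (s + 1)) = kap d (p + s + 1) := by rw [add_assoc]
      _ ≤ (1 - mu d / h0 d) * kap d (p + s) := h1
      _ ≤ (1 - mu d / h0 d) * ((1 - mu d / h0 d) ^ s * kap d p) :=
          mul_le_mul_of_nonneg_left ih h0'
      _ = _ := by ring

/-- the number of steps -/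
noncomputable def ss (d : ℕ) : ℕ := ⌊Real.sqrt (rr d)⌋₊

lemma three_le {d : ℕ} (h1 : (2500 : ℝ) ≤ h0 d) (h2 : 10 * (h0 d : ℝ) ≤ mu d ^ 2) :
    3 * (h0 d : ℝ) ≤ mu d * ss d := by
  set D : ℝ := (h0 d : ℝ) with hD
  have hD0 : 0 ≤ D := by linarith
  set r : ℝ := Real.sqrt D with hr
  have hr2 : r ^ 2 = D := Real.sq_sqrt hD0
  have hr50 : 50 ≤ r := by
    rw [hr]
    apply Real.le_sqrt_of_sq_le
    linarith
  have h3 : r - 1 ≤ Real.sqrt (rr d) := by
    apply Real.le_sqrt_of_sq_le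
    rw [rr]
    nlinarith
  have h4 : Real.sqrt (rr d) < ss d + 1 := Nat.lt_floor_add_one _
  have h5 : 0.96 * r ≤ ss d := by linarith
  have h6 : 3.16 * r ≤ mu d := by
    apply le_of_sq_le_sq _ (mu_nonneg d)
    nlinarith
  have h7 : (3.16 * r) * (0.96 * r) ≤ mu d * ss d :=
    mul_le_mul h6 h5 (by positivity) (mu_nonneg d)
  nlinarith

end Pool.Agent.Y178.NG
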