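import Mathlib
import Pool.Agent.Y178.NG.Count

/-!
Asymptotic comparison of the excess `mu d` with the number of sections `h0 d`.
-/

namespace Pool.Agent.Y178.NG

open Pool.Agent.H940R2 Filter Topology

variable [NX]

omit [NX] in
lemma ev_pow (j : ℕ) : ∀ᶠ d : ℕ in atTop,
    20 * ((j + 2).factorial : ℝ) ^ 2 ≤
      4 * ((j : ℝ) + 4) ^ 2 * (j + 3).factorial * ((d : ℝ) - (j + 2)) ^ j := by
  rcases j with _ | j
  · refine Filter.Eventually.of_forall fun d => ?_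
    norm_num [Nat.factorial]
  · have h1 : Tendsto (fun d : ℕ => (d : ℝ) - (((j + 1 : ℕ) : ℝ) + 2)) atTop atTop :=
      tendsto_atTop_add_const_right _ _ tendsto_natCast_atTop_atTop
    have h2 := (tendsto_pow_atTop (α := ℝ) (n := j + 1) (by omega)).comp h1
    have hA : (0 : ℝ) < 4 * (((j + 1 : ℕ) : ℝ) + 4) ^ 2 * (j + 1 + 3).factorial := by
      have := Nat.factorial_pos (j + 1 + 3)
      positivity
    have h3 := (h2.const_mul_atTop hA).eventually_ge_atTop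
      (20 * ((j + 1 + 2).factorial : ℝ) ^ 2)
    filter_upwards [h3] with d hd
    exact hd

omit [NX] in
lemma ev_ratio (k : ℕ) : ∀ᶠ d : ℕ in atTop,
    0 < (d : ℝ) - k ∧ ((d : ℝ) + k + 1) ^ (k + 2) ≤ 2 * ((d : ℝ) - k) ^ (k + 2) := by
  have h1 : Tendsto (fun d : ℕ => (d : ℝ) - k) atTop atTop :=
    tendsto_atTop_add_const_right _ _ tendsto_natCast_atTop_atTop
  have h2 : Tendsto (fun d : ℕ => (2 * (k : ℝ) + 1) / ((d : ℝ) - k)) atTop (𝓝 0) :=
    tendsto_const_nhds.div_atTop h1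
  have h3 : Tendsto (fun d : ℕ => (1 + (2 * (k : ℝ) + 1) / ((d : ℝ) - k)) ^ (k + 2)) atTop
      (𝓝 ((1 + 0) ^ (k + 2))) := (h2.const_add 1).pow _
  rw [add_zero, one_pow] at h3
  filter_upwards [h3.eventually_lt_const (by norm_num : (1 : ℝ) < 2),
    h1.eventually_gt_atTop 0] with d hd hpos
  refine ⟨hpos, ?_⟩
  have e : (d : ℝ) + k + 1 = (1 + (2 * (k : ℝ) + 1) / ((d : ℝ) - k)) * ((d : ℝ) - k) := by
    field_simp
    ring
  rw [e, mul_pow]
  exact mul_le_mul_of_nonneg_right hd.le (by positivity)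

omit [NX] in
lemma ev_pow_any {j : ℕ} (hj : 1 ≤ j) (C : ℝ) : ∀ᶠ d : ℕ in atTop,
    2 * C * ((j + 2).factorial : ℝ) ^ 2 ≤
      4 * ((j : ℝ) + 4) ^ 2 * (j + 3).factorial * ((d : ℝ) - (j + 2)) ^ j := by
  have h1 : Tendsto (fun d : ℕ => (d : ℝ) - ((j : ℝ) + 2)) atTop atTop :=
    tendsto_atTop_add_const_right _ _ tendsto_natCast_atTop_atTop
  have h2 := (tendsto_pow_atTop (α := ℝ) (n := j) (by omega)).comp h1
  have hA : (0 : ℝ) < 4 * ((j : ℝ) + 4) ^ 2 * (j + 3).factorial := by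
    have := Nat.factorial_pos (j + 3)
    positivity
  have h3 := (h2.const_mul_atTop hA).eventually_ge_atTop
    (2 * C * ((j + 2).factorial : ℝ) ^ 2)
  filter_upwards [h3] with d hd
  exact hd

lemma sq_ge {j : ℕ} (hj : nx = j + 4) (C : ℝ) (hC : 0 ≤ C) (hev : ∀ᶠ d : ℕ in atTop,
    2 * C * ((j + 2).factorial : ℝ) ^ 2 ≤
      4 * ((j : ℝ) + 4) ^ 2 * (j + 3).factorial * ((d : ℝ) - (j + 2)) ^ j) :
    ∀ᶠ d : ℕ in atTop, C * (h0 d : ℝ) ≤ mu d ^ 2 := by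
  filter_upwards [hev, ev_ratio (j + 2), eventually_ge_atTop nx] with d h1 h2 hd
  obtain ⟨hy, h2⟩ := h2
  have hk : nx = (j + 2) + 2 := by omega
  have h3 := mu_ge hk hd
  have h4 := Nat.pow_le_choose (α := ℝ) (j + 2) (d - 1)
  have e1 : d - 1 + 1 - (j + 2) = d - (j + 2) := by omega
  rw [e1, Nat.cast_sub (by omega)] at h4
  have h5 : (NN d : ℝ) ≤ ((d : ℝ) + (j + 2) + 1) ^ (j + 3) / (j + 3).factorial := by
    have h6 := Nat.choose_le_pow_div (α := ℝ) (j + 3) (d + (j + 3))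
    have e2 : NN d = (d + (j + 3)).choose (j + 3) := by
      rw [NN_eq, Nat.choose_symm_add, hj]
      rfl
    rw [e2]
    refine h6.trans (le_of_eq ?_)
    push_cast
    ring_nf
  push_cast at h1 h2 h3 h4 hy
  set y : ℝ := (d : ℝ) - (j + 2) with hydef
  have hf2 : (0 : ℝ) < (j + 2).factorial := by exact_mod_cast Nat.factorial_pos _
  have hf3 : (0 : ℝ) < (j + 3).factorial := by exact_mod_cast Nat.factorial_pos _
  -- upper bound for `h0`
  have h6 : (h0 d : ℝ) * (j + 3).factorial ≤ 2 * y ^ (j + 4) := by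
    rw [real_h0]
    have h7 : (NN d : ℝ) * (j + 3).factorial ≤ ((d : ℝ) + (j + 2) + 1) ^ (j + 3) := by
      rw [le_div_iff₀ hf3] at h5
      exact h5
    have h8 : ((d : ℝ) + 1) * NN d * (j + 3).factorial ≤
        ((d : ℝ) + (j + 2) + 1) * ((d : ℝ) + (j + 2) + 1) ^ (j + 3) := by
      rw [mul_assoc]
      apply mul_le_mul _ h7 (by positivity) (by positivity)
      have : (0 : ℝ) ≤ j := Nat.cast_nonneg _
      linarith
    refine h8.trans (le_trans (le_of_eq ?_) h2)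
    ring
  -- lower bound for `mu`
  have h9 : 2 * ((j : ℝ) + 4) * y ^ (j + 2) ≤ mu d * (j + 2).factorial := by
    rw [div_le_iff₀ hf2] at h4
    have h10 : 2 * ((j : ℝ) + 2 + 2) * y ^ (j + 2) ≤
        2 * ((j : ℝ) + 2 + 2) * ((d - 1).choose (j + 2) * (j + 2).factorial) :=
      mul_le_mul_of_nonneg_left h4 (by positivity)
    have h11 := mul_le_mul_of_nonneg_right h3 hf2.le
    have e3 : 2 * ((j : ℝ) + 4) * y ^ (j + 2) = 2 * ((j : ℝ) + 2 + 2) * y ^ (j + 2) := by ring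
    rw [e3]
    refine h10.trans (le_trans (le_of_eq ?_) h11)
    ring
  have h12 : (2 * ((j : ℝ) + 4) * y ^ (j + 2)) ^ 2 ≤ (mu d * (j + 2).factorial) ^ 2 :=
    pow_le_pow_left₀ (by positivity) h9 2
  -- comparison
  have h13 : 2 * C * ((j + 2).factorial : ℝ) ^ 2 * y ^ (j + 4) ≤
      4 * ((j : ℝ) + 4) ^ 2 * (j + 3).factorial * y ^ j * y ^ (j + 4) :=
    mul_le_mul_of_nonneg_right h1 (by positivity)
  have h14 : 4 * ((j : ℝ) + 4) ^ 2 * (j + 3).factorial * y ^ j * y ^ (j + 4) =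
      (2 * ((j : ℝ) + 4) * y ^ (j + 2)) ^ 2 * (j + 3).factorial := by ring
  have h15 : C * (h0 d : ℝ) * ((j + 3).factorial * ((j + 2).factorial : ℝ) ^ 2) ≤
      mu d ^ 2 * ((j + 3).factorial * ((j + 2).factorial : ℝ) ^ 2) := by
    calc C * (h0 d : ℝ) * ((j + 3).factorial * ((j + 2).factorial : ℝ) ^ 2)
        = C * ((h0 d : ℝ) * (j + 3).factorial) * ((j + 2).factorial : ℝ) ^ 2 := by ring
      _ ≤ C * (2 * y ^ (j + 4)) * ((j + 2).factorial : ℝ) ^ 2 := by gcongr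
      _ = 2 * C * ((j + 2).factorial : ℝ) ^ 2 * y ^ (j + 4) := by ring
      _ ≤ (2 * ((j : ℝ) + 4) * y ^ (j + 2)) ^ 2 * (j + 3).factorial := by
          rw [← h14]
          exact h13
      _ ≤ (mu d * (j + 2).factorial) ^ 2 * (j + 3).factorial :=
          mul_le_mul_of_nonneg_right h12 hf3.le
      _ = mu d ^ 2 * ((j + 3).factorial * ((j + 2).factorial : ℝ) ^ 2) := by ring
  exact le_of_mul_le_mul_right h15 (by positivity)

/-- in dimension at least four -/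
lemma ten_le {j : ℕ} (hj : nx = j + 4) : ∀ᶠ d : ℕ in atTop, 10 * (h0 d : ℝ) ≤ mu d ^ 2 := by
  refine sq_ge hj 10 (by norm_num) ?_
  filter_upwards [ev_pow j] with d hd
  refine le_trans (le_of_eq ?_) hd
  norm_num

/-- in dimension at least five -/
lemma any_le {j : ℕ} (hj : nx = j + 4) (hj1 : 1 ≤ j) (C : ℝ) (hC : 0 ≤ C) :
    ∀ᶠ d : ℕ in atTop, C * (h0 d : ℝ) ≤ mu d ^ 2 :=
  sq_ge hj C hC (ev_pow_any hj1 C)

lemma any_mul_le {d : ℕ} {M : ℝ} (hM : 0 ≤ M) (h1 : (2500 : ℝ) ≤ h0 d)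
    (h2 : (2 * M) ^ 2 * (h0 d : ℝ) ≤ mu d ^ 2) : M * (h0 d : ℝ) ≤ mu d * ss d := by
  set D : ℝ := (h0 d : ℝ) with hD
  have hD0 : 0 ≤ D := by linarith
  set r : ℝ := Real.sqrt D with hr
  have hr2 : r ^ 2 = D := Real.sq_sqrt hD0
  have hr50 : 50 ≤ r := by
    rw [hr]
    apply Real.le_sqrt_of_sq_le
    linarith
  have h3 : r - 1 ≤ Real.sqrt (rr d) := by
    apply Real.le_sqrt_of_sq_le
    rw [rr]
    nlinarith
  have h4 : Real.sqrt (rr d) < ss d + 1 := Nat.lt_floor_add_one _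
  have h5 : r / 2 ≤ ss d := by linarith
  have h6 : 2 * M * r ≤ mu d := by
    apply le_of_sq_le_sq _ (mu_nonneg d)
    nlinarith
  have h7 : (2 * M * r) * (r / 2) ≤ mu d * ss d :=
    mul_le_mul h6 h5 (by positivity) (mu_nonneg d)
  nlinarith

lemma h0_ge (d : ℕ) : d + 1 ≤ h0 d := by
  rw [h0_eq]
  exact Nat.le_mul_of_pos_right _ (NN_pos d)

end Pool.Agent.Y178.NG
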