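import Mathlib
import Pool.Agent.Y178.NG.Ident

/-!
Sanity checks on the definitions: the Koszul differential squares to zero, it maps the spaces of
chains into each other, boundaries are cycles, and all the spaces are finite-dimensional.
-/

namespace Pool.Agent.Y178.NG

open Pool.Agent.H940R2

variable [NX]

open MvPolynomial Finset

variable {d : ℕ}

lemma kosz_eq_smul (f : Finset (Fin (h0 d)) → Poly) (G : Finset (Fin (h0 d))) :
    kosz d f G = ∑ b ∈ Gᶜ, sg ℂ G b • (bas d b * f (insert b G)) := by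
  rw [kosz_apply]
  refine Finset.sum_congr rfl fun b _ => ?_
  rw [sg, MvPolynomial.smul_eq_C_mul, map_pow, map_neg, map_one, mul_assoc]

/-- The Koszul differential squares to zero. -/
theorem kosz_kosz (f : Finset (Fin (h0 d)) → Poly) : kosz d (kosz d f) = 0 := by
  apply TT_inj
  rw [map_zero]
  funext x
  obtain ⟨G, u⟩ := x
  by_cases hG : ⊥ ∈ G
  · have h1 := DK_TT (kosz d f) hG u
    have h2 : DK ℂ (exs (exd d)) (TT d (kosz d f)) (G, u) =
        -DK ℂ (exs (exd d)) (DK ℂ (exs (exd d)) (TT d f)) (G, u) := by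
      rw [DK_apply, DK_apply, ← Finset.sum_neg_distrib]
      refine Finset.sum_congr rfl fun b _ => ?_
      rw [DK_TT f (Finset.mem_insert_of_mem hG)]
      ring
    rw [h2, DK_DK] at h1
    simp only [Pi.zero_apply, neg_zero] at h1 ⊢
    linear_combination h1
  · rw [TT_neg (by tauto)]
    rfl

/-- The differential maps `Λ^{p+1} H⁰(L) ⊗ H⁰(m L)` to `Λ^p H⁰(L) ⊗ H⁰((m+1) L)`. -/
theorem kosz_mem {p : ℕ} {m : ℤ} {f : Finset (Fin (h0 d)) → Poly} (hf : f ∈ chains d (p + 1) m) :
    kosz d f ∈ chains d p (m + 1) := by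
  refine ⟨fun F => ?_, fun F hF => kosz_card hf.2 F hF⟩
  by_cases hF : F.card = p
  · have h1 := kosz_Sec (fun F => chains_Sec hf F) F
    rw [hF] at h1
    have e : (((p + 1 : ℕ) : ℤ) + m - p) = m + 1 := by push_cast; ring
    rwa [e] at h1
  · rw [kosz_card hf.2 F hF]
    exact Submodule.zero_mem _

/-- Boundaries are cycles. -/
theorem bdy_le_cyc (d p : ℕ) (q : ℤ) : bdy d p q ≤ cyc d p q := by
  rintro _ ⟨f, hf, rfl⟩
  refine ⟨?_, LinearMap.mem_ker.mpr (kosz_kosz f)⟩
  have h1 := kosz_mem hf
  rwa [sub_add_cancel] at h1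

/-- `H⁰(ℙ^(N-1) × ℙ¹, 𝒪(e,e))` is finite-dimensional. -/
theorem Sec_finite (e : ℤ) : FiniteDimensional ℂ (Sec e) := by
  classical
  let N : Var →₀ ℕ := Finsupp.equivFunOnFinite.symm (fun _ => e.toNat)
  have h : Sec e ≤ Submodule.span ℂ
      (((Finset.Iic N).image (fun u => (monomial u (1 : ℂ) : Poly)) : Finset Poly) : Set Poly) := by
    intro f hf
    rw [← f.support_sum_monomial_coeff]
    refine Submodule.sum_mem _ fun u hu => ?_
    obtain ⟨h1, h2⟩ := hf u (by simpa [mem_support_iff] using hu)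
    have e : monomial u (coeff u f) = (coeff u f) • (monomial u (1 : ℂ) : Poly) := by
      rw [smul_monomial, smul_eq_mul, mul_one]
    rw [e]
    refine Submodule.smul_mem _ _ (Submodule.subset_span ?_)
    rw [Finset.coe_image]
    refine ⟨u, ?_, rfl⟩
    rw [Finset.mem_coe, Finset.mem_Iic]
    intro c
    change u c ≤ Int.toNat _
    rcases c with a | b
    · have := Finset.single_le_sum (f := fun a => ((u (Sum.inl a) : ℕ) : ℤ))
        (fun _ _ => Int.natCast_nonneg _) (Finset.mem_univ a)
      rw [h1] at this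
      omega
    · have := Finset.single_le_sum (f := fun b => ((u (Sum.inr b) : ℕ) : ℤ))
        (fun _ _ => Int.natCast_nonneg _) (Finset.mem_univ b)
      rw [h2] at this
      omega
  exact Submodule.finiteDimensional_of_le h

/-- `Λ^p H⁰(L_d) ⊗ H⁰(m L_d)` is finite-dimensional. -/
theorem chains_finite (d p : ℕ) (m : ℤ) : FiniteDimensional ℂ (chains d p m) := by
  have := Sec_finite (m * d)
  let Φ : chains d p m →ₗ[ℂ] (Finset (Fin (h0 d)) → Sec (m * d)) :=
    { toFun := fun f B => ⟨f.1 B, f.2.1 B⟩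
      map_add' := fun _ _ => rfl
      map_smul' := fun _ _ => rfl }
  refine FiniteDimensional.of_injective Φ ?_
  intro f g h
  apply Subtype.ext
  funext B
  exact congrArg Subtype.val (congrFun h B)

/-- The space of cycles, hence also `K_{p,q}`, is finite-dimensional. -/
theorem cyc_finite (d p : ℕ) (q : ℤ) : FiniteDimensional ℂ (cyc d p q) := by
  have := chains_finite d p q
  exact Submodule.finiteDimensional_of_le inf_le_left

end Pool.Agent.Y178.NG
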